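import Pool.Agent.Helper20.Pfx.Main
import Pool.Agent.Helper29.Prefix.AAE.Fin

/-!
# Classification of the quantifier prefixes, with universal spectra
-/

set_option autoImplicit false

namespace Pool.Agent.Helper20.Spectra

/-- universal blocks, the polynomial being positive -/
theorem exists_universal_pos :
    ∃ Θ₀ : Finset (ℕ × ℕ × ℕ × ℕ), ∀ A : Set ℕ, IsSpectrum A →
        ∃ g : Polynomial ℕ, (∀ n, 1 ≤ g.eval n) ∧
          A = {n : ℕ | 1 ≤ n ∧ g.eval n ∈ squareSizes Θ₀} := by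
  obtain ⟨k₀, Θ₀, hΘ₀⟩ := spectrum_blocks univSizes_spectrum
  refine ⟨Θ₀, ?_⟩
  intro A hA
  obtain ⟨k, Θ, hΘ⟩ := spectrum_blocks hA
  obtain ⟨t, rfl⟩ := exists_blk Θ
  have hev : ∀ n : ℕ, (((Polynomial.X ^ (k + 1) + Polynomial.C (2 + t)) ^ 2 +
      Polynomial.C t) ^ (k₀ + 1) : Polynomial ℕ).eval n =
      ((n ^ (k + 1) + 2 + t) ^ 2 + t) ^ (k₀ + 1) := by
    intro n
    simp [add_assoc]
  have hone : ∀ n : ℕ, 1 ≤ (n ^ (k + 1) + 2 + t) ^ 2 + t := by
    intro n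
    have : 1 ≤ (n ^ (k + 1) + 2 + t) ^ 2 := Nat.one_le_pow _ _ (by omega)
    omega
  refine ⟨((Polynomial.X ^ (k + 1) + Polynomial.C (2 + t)) ^ 2 + Polynomial.C t) ^ (k₀ + 1),
    fun n => ?_, ?_⟩
  · rw [hev]
    exact Nat.one_le_pow _ _ (hone n)
  ext n
  have hpos : ∀ n ∈ A, 1 ≤ n := fun n hn => hA.pos hn
  simp only [Set.mem_ofPred_eq, hev]
  constructor
  · intro hn
    have h1 := hpos n hn
    refine ⟨h1, ?_⟩
    rw [← hΘ₀ _ (hone n), mem_univSizes, ← hΘ n h1]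
    exact hn
  · rintro ⟨h1, h2⟩
    rw [← hΘ₀ _ (hone n), mem_univSizes, ← hΘ n h1] at h2
    exact h2

/-- preimages of spectra under polynomials are spectra -/
lemma IsSpectrum.preimage {A : Set ℕ} (hA : IsSpectrum A) (h : Polynomial ℕ) :
    IsSpectrum {n : ℕ | 1 ≤ n ∧ h.eval n ∈ A} := by
  obtain ⟨Θ₀, hΘ₀⟩ := exists_universal_pos
  obtain ⟨g, _, hg⟩ := hΘ₀ A hA
  obtain ⟨C, hC⟩ := exists_SqCond Θ₀
  have hp : IsPoly 1 (fun v => h.eval (v 0)) := IsPoly.polyEval h (IsPoly.var (0 : Fin 1))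
  have h1 := (RudX.and' (RudX.le (a := fun _ : Fin (C + 1) => 2) (IsPoly.const 1) hp)
    (SqCond_rudX Θ₀ C (IsPoly.polyEval g hp))).isSpectrum
  convert h1 using 1
  ext n
  simp only [Set.mem_ofPred_eq]
  rw [hg]
  simp only [Set.mem_ofPred_eq, hC]
  constructor
  · rintro ⟨h2, h3, X, hX⟩
    exact ⟨h2, X, h3, hX⟩
  · rintro ⟨h2, X, h3, hX⟩
    exact ⟨h2, h3, X, hX⟩

/-- a universal spectrum for every prefix containing a universal prefix -/
lemma universal_of {w q : ℕ → Bool} (hw : UniversalPrefix w) {r : ℕ} (e : Fin 3 → Fin r)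
    (he : StrictMono e) (hq : ∀ i : Fin 3, w i = q (e i)) :
    ∃ U : Set ℕ, PrefixSpectrum q r U ∧ ∀ A : Set ℕ, IsSpectrum A ↔
      ∃ h : Polynomial ℕ, A = {n : ℕ | 1 ≤ n ∧ h.eval n ∈ U} := by
  obtain ⟨Θ₀, hΘ₀⟩ := exists_universal_pos
  obtain ⟨p, U, hU, hp⟩ := hw Θ₀
  have hUr : PrefixSpectrum q r U := hU.sub e he hq
  refine ⟨U, hUr, fun A => ⟨fun hA => ?_, ?_⟩⟩
  · obtain ⟨g, hg1, hg⟩ := hΘ₀ A hA
    refine ⟨p.comp g, ?_⟩
    rw [hg]
    ext n
    simp only [Set.mem_ofPred_eq, Polynomial.eval_comp]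
    exact and_congr_right (fun _ => hp _ (hg1 n))
  · rintro ⟨h, rfl⟩
    exact hUr.isSpectrum.preimage h

theorem prefix_final (q : ℕ → Bool) (r : ℕ) :
    ((∃ i j k, i < j ∧ j < k ∧ k < r ∧ q i = true ∧ q j ≠ q k) →
      (∃ U : Set ℕ, PrefixSpectrum q r U ∧ ∀ A : Set ℕ, IsSpectrum A ↔
        ∃ h : Polynomial ℕ, A = {n : ℕ | 1 ≤ n ∧ h.eval n ∈ U}) ∧
      ((∀ A : Set ℕ, PrefixSpectrum q r A → IsRudimentary A) ↔
        ∀ A : Set ℕ, IsSpectrum A ↔ (IsRudimentary A ∧ 0 ∉ A))) ∧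
    ((¬ ∃ i j k, i < j ∧ j < k ∧ k < r ∧ q i = true ∧ q j ≠ q k) →
      ∀ A : Set ℕ, PrefixSpectrum q r A → (A.Finite ∨ Aᶜ.Finite)) := by
  obtain ⟨h1, h2⟩ := prefix_main Helper29.Prefix.aae_universal r q
  refine ⟨fun h => ⟨?_, h1 h⟩, h2⟩
  obtain ⟨i, j, k, hij, hjk, hk, hi, hne⟩ := h
  let e : Fin 3 → Fin r := ![⟨i, by omega⟩, ⟨j, by omega⟩, ⟨k, hk⟩]
  have he : StrictMono e := by
    intro a b hab
    fin_cases a <;> fin_cases b <;> simp [e, Fin.lt_def] at hab ⊢ <;> omega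
  by_cases hj : q j = true
  · have hk' : q k = false := by
      cases hqk : q k
      · rfl
      · exact absurd (hj.trans hqk.symm) hne
    refine universal_of Helper29.Prefix.aae_universal e he (fun a => ?_)
    fin_cases a
    · exact hi.symm
    · exact hj.symm
    · exact hk'.symm
  · have hj' : q j = false := by simpa using hj
    have hk' : q k = true := by
      cases hqk : q k
      · exact absurd (hj'.trans hqk.symm) hne
      · rfl
    refine universal_of (w := wAEA)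
      (fun Θ => aea_universal Θ (by decide) (by decide) (by decide)) e he (fun a => ?_)
    fin_cases a
    · exact hi.symm
    · exact hj'.symm
    · exact hk'.symm

end Pool.Agent.Helper20.Spectra
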