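import Pool.Agent.Helper20.Pfx.Def

/-!
# The prefix `∀∃∀`
-/

set_option autoImplicit false

namespace Pool.Agent.Helper20.Spectra

/-- symbols of the sentence with prefix `∀∃∀` -/
inductive KSym (Γ : Type)
  | lt
  | fst
  | lst
  | cell (c : Γ)

/-- arities -/
abbrev kar {Γ : Type} : KSym Γ → ℕ
  | KSym.lt => 2
  | KSym.fst => 1
  | KSym.lst => 1
  | KSym.cell _ => 2

instance {Γ : Type} [Finite Γ] : Finite (KSym Γ) := by
  refine Finite.of_injective (β := Fin 3 ⊕ Γ) (fun s : KSym Γ => match s with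
    | KSym.lt => Sum.inl 0
    | KSym.fst => Sum.inl 1
    | KSym.lst => Sum.inl 2
    | KSym.cell c => Sum.inr c) ?_
  intro s t h
  cases s <;> cases t <;> simp_all

section model

variable {Γ : Type} {M : Type}

/-- order -/
def kLt (R : Interp (KSym Γ) kar M) (x y : M) : Prop := R KSym.lt ![x, y]
/-- first -/
def kF (R : Interp (KSym Γ) kar M) (x : M) : Prop := R KSym.fst ![x]
/-- last -/
def kL (R : Interp (KSym Γ) kar M) (x : M) : Prop := R KSym.lst ![x]
/-- cells -/
def kT (R : Interp (KSym Γ) kar M) (c : Γ) (x y : M) : Prop := R (KSym.cell c) ![x, y]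

/-- the quantifier-free condition on `x`, `y` (the successor of `x`) and `z` -/
def KCond (Θ : Finset (ℕ × ℕ × ℕ × ℕ)) (R : Interp (KSym {c // c ∈ Θ}) kar M) (x y z : M) : Prop :=
  (kLt R x z ↔ (¬ kLt R z x ∧ ¬ x = z)) ∧
  ((kL R x → ((kLt R z x ∨ z = x) ∧ (¬ kLt R z y ∧ kF R y))) ∧
  ((¬ kL R x → ((kLt R z y ↔ (kLt R z x ∨ z = x)) ∧ ¬ kF R y)) ∧
  ((∃ c, (kT R c x z ∧ ∀ d, (kT R d x z → d = c))) ∧
  ((∀ c, (kT R c x z → (((c.1.1 ≠ 0) ↔ (¬ kF R x ∧ ¬ kF R z)) ∧
    (((c.1.2.1 ≠ 0) ↔ (¬ kL R x ∧ ¬ kF R z)) ∧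
    (((c.1.2.2.1 ≠ 0) ↔ (¬ kF R x ∧ ¬ kL R z)) ∧
    ((c.1.2.2.2 ≠ 0) ↔ (¬ kL R x ∧ ¬ kL R z))))))) ∧
  ((¬ kL R x → ∀ c, ∀ d, (kT R c x z → (kT R d y z →
    (c.1.2.1 = d.1.1 ∧ c.1.2.2.2 = d.1.2.2.1)))) ∧
  (¬ kL R x → ∀ c, ∀ d, (kT R c z x → (kT R d z y →
    (c.1.2.2.1 = d.1.1 ∧ c.1.2.2.2 = d.1.2.1)))))))))

lemma KCond_QF (Θ : Finset (ℕ × ℕ × ℕ × ℕ)) : QF (KSym {c // c ∈ Θ}) kar 3
    (fun _ R v => KCond Θ R (v 0) (v 1) (v 2)) := by
  have hlt : ∀ i j : Fin 3, QF (KSym {c // c ∈ Θ}) kar 3 (fun _ R v => kLt R (v i) (v j)) := by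
    intro i j
    refine (QF.rel (ar := kar) (KSym.lt : KSym {c // c ∈ Θ}) ![i, j]).congr (fun M R v => ?_)
    refine Iff.of_eq (congrArg (R KSym.lt) ?_)
    funext k
    fin_cases k <;> rfl
  have hF : ∀ i : Fin 3, QF (KSym {c // c ∈ Θ}) kar 3 (fun _ R v => kF R (v i)) := by
    intro i
    refine (QF.rel (ar := kar) (KSym.fst : KSym {c // c ∈ Θ}) ![i]).congr (fun M R v => ?_)
    refine Iff.of_eq (congrArg (R KSym.fst) ?_)
    funext k
    fin_cases k
    rfl
  have hL : ∀ i : Fin 3, QF (KSym {c // c ∈ Θ}) kar 3 (fun _ R v => kL R (v i)) := by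
    intro i
    refine (QF.rel (ar := kar) (KSym.lst : KSym {c // c ∈ Θ}) ![i]).congr (fun M R v => ?_)
    refine Iff.of_eq (congrArg (R KSym.lst) ?_)
    funext k
    fin_cases k
    rfl
  have hT : ∀ (c : {c // c ∈ Θ}) (i j : Fin 3),
      QF (KSym {c // c ∈ Θ}) kar 3 (fun _ R v => kT R c (v i) (v j)) := by
    intro c i j
    refine (QF.rel (ar := kar) (KSym.cell c : KSym {c // c ∈ Θ}) ![i, j]).congr
      (fun M R v => ?_)
    refine Iff.of_eq (congrArg (R (KSym.cell c)) ?_)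
    funext k
    fin_cases k <;> rfl
  unfold KCond
  refine QF.and ?_ (QF.and ?_ (QF.and ?_ (QF.and ?_ (QF.and ?_ (QF.and ?_ ?_)))))
  · exact (hlt 0 2).iff ((hlt 2 0).not.and (QF.eq 0 2).not)
  · exact (hL 0).imp (((hlt 2 0).or (QF.eq 2 0)).and ((hlt 2 1).not.and (hF 1)))
  · exact (hL 0).not.imp (((hlt 2 1).iff ((hlt 2 0).or (QF.eq 2 0))).and (hF 1).not)
  · exact QF.ex_fin (fun c => (hT c 0 2).and (QF.all_fin (fun d => (hT d 0 2).imp (QF.const _))))
  · refine QF.all_fin (fun c => (hT c 0 2).imp (QF.and ?_ (QF.and ?_ (QF.and ?_ ?_))))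
    · exact (QF.const _).iff ((hF 0).not.and (hF 2).not)
    · exact (QF.const _).iff ((hL 0).not.and (hF 2).not)
    · exact (QF.const _).iff ((hF 0).not.and (hL 2).not)
    · exact (QF.const _).iff ((hL 0).not.and (hL 2).not)
  · exact (hL 0).not.imp (QF.all_fin (fun c => QF.all_fin (fun d =>
      (hT c 0 2).imp ((hT d 1 2).imp (QF.const _)))))
  · exact (hL 0).not.imp (QF.all_fin (fun c => QF.all_fin (fun d =>
      (hT c 2 0).imp ((hT d 2 1).imp (QF.const _)))))

end model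

/-- squares give models -/
lemma kmodel_of_square {Θ : Finset (ℕ × ℕ × ℕ × ℕ)} {N : ℕ} (h : N ∈ squareSizes Θ) :
    ∃ R : Interp (KSym {c // c ∈ Θ}) kar (Fin (N + 1)), ∀ x, ∃ y, ∀ z, KCond Θ R x y z := by
  obtain ⟨hN, a, ha, hblk⟩ := h
  let R : Interp (KSym {c // c ∈ Θ}) kar (Fin (N + 1)) := fun s => match s with
    | KSym.lt => fun v => v 0 < v 1
    | KSym.fst => fun v => (v 0 : ℕ) = 0
    | KSym.lst => fun v => (v 0 : ℕ) = N
    | KSym.cell c => fun v => c.1 = (a (v 0) (v 1), a ((v 0 : ℕ) + 1) (v 1),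
        a (v 0) ((v 1 : ℕ) + 1), a ((v 0 : ℕ) + 1) ((v 1 : ℕ) + 1))
  have eLt : ∀ x y, kLt R x y ↔ (x : ℕ) < y := fun x y => Iff.rfl
  have eF : ∀ x, kF R x ↔ (x : ℕ) = 0 := fun x => Iff.rfl
  have eL : ∀ x, kL R x ↔ (x : ℕ) = N := fun x => Iff.rfl
  have eT : ∀ c x y, kT R c x y ↔ c.1 = (a x y, a ((x : ℕ) + 1) y, a x ((y : ℕ) + 1),
      a ((x : ℕ) + 1) ((y : ℕ) + 1)) := fun c x y => Iff.rfl
  refine ⟨R, fun x => ?_⟩
  -- the successor
  obtain ⟨y, hy⟩ : ∃ y : Fin (N + 1), ((x : ℕ) = N → (y : ℕ) = 0) ∧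
      (¬ (x : ℕ) = N → (y : ℕ) = x + 1) := by
    by_cases hx : (x : ℕ) = N
    · exact ⟨0, fun _ => rfl, fun h => absurd hx h⟩
    · have := x.isLt
      exact ⟨⟨x + 1, by omega⟩, fun h => absurd h hx, fun _ => rfl⟩
  refine ⟨y, fun z => ?_⟩
  have hx := x.isLt
  have hz := z.isLt
  have hext : ∀ u v : Fin (N + 1), u = v ↔ (u : ℕ) = v := fun u v => Fin.ext_iff
  unfold KCond
  simp only [eLt, eF, eL, eT, hext]
  refine ⟨by omega, ?_, ?_, ?_, ?_, ?_, ?_⟩
  · intro h
    have := hy.1 h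
    omega
  · intro h
    have := hy.2 h
    omega
  · refine ⟨⟨(a x z, a ((x : ℕ) + 1) z, a x ((z : ℕ) + 1), a ((x : ℕ) + 1) ((z : ℕ) + 1)),
      hblk x z (by omega) (by omega)⟩, rfl, fun d hd => Subtype.ext hd⟩
  · intro c hc
    rw [hc]
    simp only [ha]
    refine ⟨by omega, by omega, by omega, by omega⟩
  · intro h c d hc hd
    rw [hc, hd, hy.2 h]
    exact ⟨rfl, rfl⟩
  · intro h c d hc hd
    rw [hc, hd, hy.2 h]
    exact ⟨rfl, rfl⟩

/-- models give squares -/
lemma square_of_kmodel {Θ : Finset (ℕ × ℕ × ℕ × ℕ)} {N : ℕ} (hN : 1 ≤ N) {M : Type} [Fintype M]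
    (hM : Fintype.card M = N + 1) (R : Interp (KSym {c // c ∈ Θ}) kar M)
    (h : ∀ x, ∃ y, ∀ z, KCond Θ R x y z) : N ∈ squareSizes Θ := by
  classical
  choose s hs using h
  have h1 : ∀ x z, kLt R x z ↔ (¬ kLt R z x ∧ ¬ x = z) := fun x z => (hs x z).1
  have h2 : ∀ x z, kL R x → ((kLt R z x ∨ z = x) ∧ (¬ kLt R z (s x) ∧ kF R (s x))) :=
    fun x z => (hs x z).2.1
  have h3 : ∀ x z, ¬ kL R x → ((kLt R z (s x) ↔ (kLt R z x ∨ z = x)) ∧ ¬ kF R (s x)) :=
    fun x z => (hs x z).2.2.1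
  have h4 : ∀ x z, ∃ c, (kT R c x z ∧ ∀ d, (kT R d x z → d = c)) := fun x z => (hs x z).2.2.2.1
  have h5 := fun x z => (hs x z).2.2.2.2.1
  have h6 := fun x z => (hs x z).2.2.2.2.2.1
  have h7 := fun x z => (hs x z).2.2.2.2.2.2
  have irr : ∀ x, ¬ kLt R x x := fun x hx => ((h1 x x).1 hx).2 rfl
  -- rank
  let D : M → Finset M := fun x => Finset.univ.filter (fun z => kLt R z x)
  have hD : ∀ x z, z ∈ D x ↔ kLt R z x := fun x z => by simp [D]
  have hDx : ∀ x, x ∉ D x := fun x hx => irr x ((hD x x).1 hx)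
  let rk : M → ℕ := fun x => (D x).card
  have hle : ∀ x, rk x ≤ N := by
    intro x
    have : (insert x (D x)).card ≤ Fintype.card M := Finset.card_le_univ _
    rw [Finset.card_insert_of_notMem (hDx x), hM] at this
    show (D x).card ≤ N
    omega
  have hsuc : ∀ x, ¬ kL R x → D (s x) = insert x (D x) := by
    intro x hx
    ext z
    rw [hD, (h3 x z hx).1, Finset.mem_insert, hD]
    tauto
  have hrs : ∀ x, ¬ kL R x → rk (s x) = rk x + 1 := by
    intro x hx
    show (D (s x)).card = (D x).card + 1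
    rw [hsuc x hx, Finset.card_insert_of_notMem (hDx x)]
  have hLrk : ∀ x, kL R x ↔ rk x = N := by
    intro x
    constructor
    · intro hx
      have : insert x (D x) = Finset.univ := by
        ext z
        rw [Finset.mem_insert, hD]
        have := (h2 x z hx).1
        simp only [Finset.mem_univ, iff_true]
        tauto
      have h' := congrArg Finset.card this
      rw [Finset.card_insert_of_notMem (hDx x), Finset.card_univ, hM] at h'
      show (D x).card = N
      omega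
    · intro hx
      by_contra hc
      have := hrs x hc
      have := hle (s x)
      omega
  have hinj' : ∀ k, ∀ x x', rk x + k = N → rk x' + k = N → x = x' := by
    intro k
    induction k with
    | zero =>
      intro x x' hx hx'
      have e1 := (h2 x x' ((hLrk x).2 hx)).1
      have e2 := (h2 x' x ((hLrk x').2 hx')).1
      rcases e1 with e1 | e1
      · rcases e2 with e2 | e2
        · exact absurd e2 ((h1 x' x).1 e1).1
        · exact e2
      · exact e1.symm
    | succ k ih =>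
      intro x x' hx hx'
      have hx1 : ¬ kL R x := fun h => by
        have := (hLrk x).1 h
        omega
      have hx1' : ¬ kL R x' := fun h => by
        have := (hLrk x').1 h
        omega
      have e1 := ih (s x) (s x') (by rw [hrs x hx1]; omega) (by rw [hrs x' hx1']; omega)
      by_contra hne
      have e2 : insert x (D x) = insert x' (D x') := by rw [← hsuc x hx1, ← hsuc x' hx1', e1]
      have e3 : x ∈ insert x' (D x') := e2 ▸ Finset.mem_insert_self x (D x)
      have e4 : x' ∈ insert x (D x) := e2.symm ▸ Finset.mem_insert_self x' (D x')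
      rw [Finset.mem_insert, hD] at e3 e4
      rcases e3 with e3 | e3
      · exact hne e3
      · rcases e4 with e4 | e4
        · exact hne e4.symm
        · exact ((h1 x x').1 e3).1 e4
  have hinj : ∀ x x', rk x = rk x' → x = x' := by
    intro x x' hxx
    have := hle x
    exact hinj' (N - rk x) x x' (by omega) (by omega)
  have hbij : Function.Bijective (fun x : M => (⟨rk x, Nat.lt_succ_of_le (hle x)⟩ : Fin (N + 1))) := by
    rw [Fintype.bijective_iff_injective_and_card]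
    refine ⟨fun x x' hxx => hinj x x' (congrArg Fin.val hxx), ?_⟩
    rw [hM, Fintype.card_fin]
  have hsurj : ∀ i, i ≤ N → ∃ x, rk x = i := by
    intro i hi
    obtain ⟨x, hx⟩ := hbij.2 ⟨i, by omega⟩
    exact ⟨x, congrArg Fin.val hx⟩
  have hx0 : Nonempty M := by
    obtain ⟨x, _⟩ := hsurj 0 (by omega)
    exact ⟨x⟩
  have : ∃ e : ℕ → M, ∀ i, i ≤ N → rk (e i) = i := by
    refine ⟨fun i => if h : i ≤ N then (hsurj i h).choose else hx0.some, fun i hi => ?_⟩
    simp only [dif_pos hi]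
    exact (hsurj i hi).choose_spec
  obtain ⟨e, he⟩ := this
  have heL : ∀ i, i ≤ N → (kL R (e i) ↔ i = N) := fun i hi => by rw [hLrk, he i hi]
  have hes : ∀ i, i < N → s (e i) = e (i + 1) := by
    intro i hi
    refine hinj _ _ ?_
    rw [hrs _ (fun h => ?_), he i hi.le, he (i + 1) hi]
    have := (heL i hi.le).1 h
    omega
  have heF : ∀ i, i ≤ N → (kF R (e i) ↔ i = 0) := by
    intro i hi
    constructor
    · intro hF
      by_contra h0
      obtain ⟨j, rfl⟩ : ∃ j, i = j + 1 := ⟨i - 1, by omega⟩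
      have hj : ¬ kL R (e j) := fun h => by
        have := (heL j (by omega)).1 h
        omega
      have := (h3 (e j) (e j) hj).2
      rw [hes j (by omega)] at this
      exact this hF
    · rintro rfl
      have hl := (heL N le_rfl).2 rfl
      have e1 := (h2 (e N) (e N) hl).2.2
      have e2 : rk (s (e N)) = 0 := by
        show (D (s (e N))).card = 0
        rw [Finset.card_eq_zero]
        ext z
        rw [hD]
        have := (h2 (e N) z hl).2.1
        simp [this]
      have e3 : s (e N) = e 0 := hinj _ _ (by rw [e2, he 0 (by omega)])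
      rw [e3] at e1
      exact e1
  -- the tiles
  choose T hT hT' using h4
  have t5 := fun x z => h5 x z (T x z) (hT x z)
  let a : ℕ → ℕ → ℕ := fun i j => if i ≤ N ∧ j ≤ N then (T (e i) (e j)).1.1 else 0
  have ha : ∀ i j, i ≤ N → j ≤ N → a i j = (T (e i) (e j)).1.1 := fun i j hi hj =>
    if_pos ⟨hi, hj⟩
  have ha0 : ∀ i j, ¬ (i ≤ N ∧ j ≤ N) → a i j = 0 := fun i j h => if_neg h
  have hr : ∀ i j, i ≤ N → j ≤ N → a (i + 1) j = (T (e i) (e j)).1.2.1 := by
    intro i j hi hj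
    by_cases hi' : i + 1 ≤ N
    · rw [ha _ _ hi' hj]
      have hl : ¬ kL R (e i) := fun h => by
        have := (heL i hi).1 h
        omega
      have := (h6 (e i) (e j) hl (T (e i) (e j)) (T (e (i + 1)) (e j)) (hT _ _)
        (by rw [← hes i (by omega)]; exact hT _ _)).1
      exact this.symm
    · rw [ha0 _ _ (by omega)]
      have := (t5 (e i) (e j)).2.1
      have hl : kL R (e i) := (heL i hi).2 (by omega)
      by_contra hc
      exact (this.1 (Ne.symm hc)).1 hl
  have hu : ∀ i j, i ≤ N → j ≤ N → a i (j + 1) = (T (e i) (e j)).1.2.2.1 := by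
    intro i j hi hj
    by_cases hj' : j + 1 ≤ N
    · rw [ha _ _ hi hj']
      have hl : ¬ kL R (e j) := fun h => by
        have := (heL j hj).1 h
        omega
      have := (h7 (e j) (e i) hl (T (e i) (e j)) (T (e i) (e (j + 1))) (hT _ _)
        (by rw [← hes j (by omega)]; exact hT _ _)).1
      exact this.symm
    · rw [ha0 _ _ (by omega)]
      have := (t5 (e i) (e j)).2.2.1
      have hl : kL R (e j) := (heL j hj).2 (by omega)
      by_contra hc
      exact (this.1 (Ne.symm hc)).2 hl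
  have hru : ∀ i j, i ≤ N → j ≤ N → a (i + 1) (j + 1) = (T (e i) (e j)).1.2.2.2 := by
    intro i j hi hj
    by_cases hi' : i + 1 ≤ N
    · rw [hu _ _ hi' hj]
      have hl : ¬ kL R (e i) := fun h => by
        have := (heL i hi).1 h
        omega
      have := (h6 (e i) (e j) hl (T (e i) (e j)) (T (e (i + 1)) (e j)) (hT _ _)
        (by rw [← hes i (by omega)]; exact hT _ _)).2
      exact this.symm
    · rw [ha0 _ _ (by omega)]
      have := (t5 (e i) (e j)).2.2.2
      have hl : kL R (e i) := (heL i hi).2 (by omega)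
      by_contra hc
      exact (this.1 (Ne.symm hc)).1 hl
  refine ⟨hN, a, ?_, ?_⟩
  · intro i j
    by_cases hij : i ≤ N ∧ j ≤ N
    · rw [ha i j hij.1 hij.2, (t5 (e i) (e j)).1, heF i hij.1, heF j hij.2]
      omega
    · rw [ha0 i j hij]
      constructor
      · intro h
        exact absurd rfl h
      · intro h
        omega
  · intro i j hi hj
    rw [hr i j hi hj, hu i j hi hj, hru i j hi hj, ha i j hi hj]
    exact (T (e i) (e j)).2

/-- every set of square sizes is obtained from the spectrum of a sentence with prefix `∀∃∀` -/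
theorem aea_universal (Θ : Finset (ℕ × ℕ × ℕ × ℕ)) {q : ℕ → Bool} (h0 : q 0 = true)
    (h1 : q 1 = false) (h2 : q 2 = true) : ∃ (p : Polynomial ℕ) (A : Set ℕ),
      PrefixSpectrum q 3 A ∧ ∀ N, 1 ≤ N → (N ∈ squareSizes Θ ↔ p.eval N ∈ A) := by
  refine ⟨Polynomial.X + 1, _, (KCond_QF Θ).prefixSpectrum q, fun N hN => ?_⟩
  have e : (Polynomial.X + 1 : Polynomial ℕ).eval N = N + 1 := by simp
  rw [e]
  constructor
  · intro h
    obtain ⟨R, hR⟩ := kmodel_of_square h
    refine ⟨by omega, Fin (N + 1), inferInstance, R, Fintype.card_fin _, ?_⟩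
    rw [preQ_AEA h0 h1 h2]
    exact hR
  · rintro ⟨_, M, _, R, hM, hR⟩
    rw [preQ_AEA h0 h1 h2] at hR
    exact square_of_kmodel hN hM R hR

end Pool.Agent.Helper20.Spectra
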