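import Pool.Agent.Helper20.Spectra.Universal

/-!
# Quantifier prefixes

Definitions for the classification of the quantifier prefixes, on the problem
`Rudimentary sets versus spectra`.
-/

set_option autoImplicit false

namespace Pool.Agent.Helper20.Spectra

open FirstOrder FirstOrder.Language

/-- The sentence `Q₀ x₀ Q₁ x₁ … Q_{r-1} x_{r-1} ψ(x₀, …, x_{r-1})`, where `Q_i` is `∀` if `q i` is
true and `∃` if `q i` is false. -/
def quantify {L : FirstOrder.Language.{0, 0}} (q : ℕ → Bool) :
    (r : ℕ) → L.BoundedFormula Empty r → L.Sentence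
  | 0, ψ => ψ
  | r + 1, ψ => quantify q r (if q r = true then ψ.all else ψ.ex)

/-- `A` is the spectrum of a sentence `Q₀ x₀ … Q_{r-1} x_{r-1} ψ` whose quantifiers `Q_i` are given
by `q` (`∀` if `q i` is true, `∃` if `q i` is false), with `ψ` quantifier-free, in a finite
vocabulary of relation symbols and equality. -/
def PrefixSpectrum (q : ℕ → Bool) (r : ℕ) (A : Set ℕ) : Prop :=
  ∃ (L : FirstOrder.Language.{0, 0}) (_ : L.IsRelational) (_ : Finite (Σ l, L.Relations l))
    (ψ : L.BoundedFormula Empty r), ψ.IsQF ∧ A = spec (quantify q r ψ)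

/-- the quantifiers, semantically -/
def preQ {M : Type} (q : ℕ → Bool) : (r : ℕ) → ((Fin r → M) → Prop) → Prop
  | 0, P => P default
  | r + 1, P => preQ q r (fun v => if q r = true then (∀ x : M, P (Fin.snoc v x)) else
      ∃ x : M, P (Fin.snoc v x))

lemma preQ_congr {M : Type} (q : ℕ → Bool) : ∀ {r : ℕ} {P Q : (Fin r → M) → Prop}
    (_ : ∀ v, P v ↔ Q v), (preQ q r P ↔ preQ q r Q)
  | 0, _, _, h => h _
  | r + 1, P, Q, h => by
    refine preQ_congr q (r := r) (fun v => ?_)
    show (if q r = true then (∀ x : M, P (Fin.snoc v x)) else ∃ x : M, P (Fin.snoc v x)) ↔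
      (if q r = true then (∀ x : M, Q (Fin.snoc v x)) else ∃ x : M, Q (Fin.snoc v x))
    split_ifs
    · exact forall_congr' (fun x => h _)
    · exact exists_congr (fun x => h _)

lemma snoc_three {M : Type} (x y z : M) :
    (Fin.snoc (Fin.snoc (Fin.snoc (default : Fin 0 → M) x : Fin 1 → M) y : Fin 2 → M) z :
      Fin 3 → M) = ![x, y, z] := by
  funext i
  fin_cases i <;> rfl

/-- prefix `∀∀∃` -/
lemma preQ_AAE {M : Type} {q : ℕ → Bool} (h0 : q 0 = true) (h1 : q 1 = true) (h2 : q 2 = false)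
    (P : (Fin 3 → M) → Prop) : preQ q 3 P ↔ ∀ x y, ∃ z, P ![x, y, z] := by
  show (if q 0 = true then (∀ x : M, if q 1 = true then (∀ y : M, if q 2 = true then
      (∀ z : M, P (Fin.snoc (Fin.snoc (Fin.snoc default x) y) z)) else
      ∃ z : M, P (Fin.snoc (Fin.snoc (Fin.snoc default x) y) z)) else _) else _) ↔ _
  simp only [h0, h1, h2, if_true, snoc_three]
  simp

/-- prefix `∀∃∀` -/
lemma preQ_AEA {M : Type} {q : ℕ → Bool} (h0 : q 0 = true) (h1 : q 1 = false) (h2 : q 2 = true)
    (P : (Fin 3 → M) → Prop) : preQ q 3 P ↔ ∀ x, ∃ y, ∀ z, P ![x, y, z] := by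
  show (if q 0 = true then (∀ x : M, if q 1 = true then _ else (∃ y : M, if q 2 = true then
      (∀ z : M, P (Fin.snoc (Fin.snoc (Fin.snoc default x) y) z)) else _)) else _) ↔ _
  simp only [h0, h1, h2, if_true, snoc_three]
  simp

lemma realize_quantify {L : FirstOrder.Language.{0, 0}} {M : Type} [L.Structure M]
    (q : ℕ → Bool) : ∀ (r : ℕ) (ψ : L.BoundedFormula Empty r),
    (M ⊨ quantify q r ψ) ↔ preQ q r (fun v : Fin r → M => ψ.Realize default v)
  | 0, ψ => Iff.rfl
  | r + 1, ψ => by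
    show (M ⊨ quantify q r (if q r = true then ψ.all else ψ.ex)) ↔ _
    rw [realize_quantify q r]
    refine preQ_congr q (fun v => ?_)
    by_cases hq : q r = true
    · simp only [hq, if_true]
      exact BoundedFormula.realize_all
    · simp only [hq]
      exact BoundedFormula.realize_ex

lemma PrefixSpectrum.isSpectrum {q : ℕ → Bool} {r : ℕ} {A : Set ℕ} (h : PrefixSpectrum q r A) :
    IsSpectrum A := by
  obtain ⟨L, hL, hf, ψ, _, rfl⟩ := h
  have h1 : IsEmpty (Σ l, L.Functions l) := ⟨fun x => (hL x.1).elim x.2⟩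
  exact ⟨L, inferInstance, hf, _, rfl⟩

/-! ### Quantifier-free conditions -/

/-- uniformly quantifier-free definable conditions -/
def QF (S : Type) (ar : S → ℕ) (r : ℕ)
    (P : ∀ (M : Type), Interp S ar M → (Fin r → M) → Prop) : Prop :=
  ∃ ψ : (RelLang S ar).BoundedFormula Empty r, ψ.IsQF ∧
    ∀ (M : Type) (R : Interp S ar M) (v : Fin r → M),
      @BoundedFormula.Realize _ M (mkS R) _ _ ψ default v ↔ P M R v

namespace QF

variable {S : Type} {ar : S → ℕ} {r : ℕ}

lemma congr {P Q : ∀ (M : Type), Interp S ar M → (Fin r → M) → Prop} (h : QF S ar r P)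
    (hPQ : ∀ M R v, Q M R v ↔ P M R v) : QF S ar r Q := by
  obtain ⟨ψ, hψ, h⟩ := h
  exact ⟨ψ, hψ, fun M R v => (h M R v).trans (hPQ M R v).symm⟩

lemma const (p : Prop) : QF S ar r (fun _ _ _ => p) := by
  by_cases hp : p
  · refine ⟨⊤, BoundedFormula.IsQF.top, fun M R v => ?_⟩
    let _ := mkS R
    simp [hp]
  · refine ⟨⊥, BoundedFormula.isQF_bot, fun M R v => ?_⟩
    let _ := mkS R
    simp [hp]

lemma eq (i j : Fin r) : QF S ar r (fun _ _ v => v i = v j) := by
  refine ⟨(Term.var (Sum.inr i)).bdEqual (Term.var (Sum.inr j)),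
    (BoundedFormula.IsAtomic.equal _ _).isQF, fun M R v => ?_⟩
  let _ := mkS R
  simp [BoundedFormula.realize_bdEqual]

lemma rel (s : S) (g : Fin (ar s) → Fin r) : QF S ar r (fun _ R v => R s (fun i => v (g i))) := by
  let ρ : (RelLang S ar).Relations (ar s) := (⟨s, rfl⟩ : {t : S // ar t = ar s})
  refine ⟨Relations.boundedFormula (L := RelLang S ar) ρ (fun i => Term.var (Sum.inr (g i))),
    (BoundedFormula.IsAtomic.rel _ _).isQF, fun M R v => ?_⟩
  let _ := mkS R
  rw [BoundedFormula.realize_rel]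
  rfl

lemma not {P : ∀ (M : Type), Interp S ar M → (Fin r → M) → Prop} (h : QF S ar r P) :
    QF S ar r (fun M R v => ¬ P M R v) := by
  obtain ⟨ψ, hψ, h⟩ := h
  refine ⟨ψ.not, hψ.not, fun M R v => ?_⟩
  let _ := mkS R
  rw [BoundedFormula.realize_not, h]

lemma and {P Q : ∀ (M : Type), Interp S ar M → (Fin r → M) → Prop} (h : QF S ar r P)
    (h' : QF S ar r Q) : QF S ar r (fun M R v => P M R v ∧ Q M R v) := by
  obtain ⟨ψ, hψ, h⟩ := h
  obtain ⟨ψ', hψ', h'⟩ := h'
  refine ⟨ψ ⊓ ψ', hψ.inf hψ', fun M R v => ?_⟩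
  let _ := mkS R
  rw [BoundedFormula.realize_inf, h, h']

lemma or {P Q : ∀ (M : Type), Interp S ar M → (Fin r → M) → Prop} (h : QF S ar r P)
    (h' : QF S ar r Q) : QF S ar r (fun M R v => P M R v ∨ Q M R v) :=
  (h.not.and h'.not).not.congr (fun M R v => by tauto)

lemma imp {P Q : ∀ (M : Type), Interp S ar M → (Fin r → M) → Prop} (h : QF S ar r P)
    (h' : QF S ar r Q) : QF S ar r (fun M R v => P M R v → Q M R v) :=
  (h.not.or h').congr (fun M R v => by tauto)

lemma iff {P Q : ∀ (M : Type), Interp S ar M → (Fin r → M) → Prop} (h : QF S ar r P)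
    (h' : QF S ar r Q) : QF S ar r (fun M R v => (P M R v ↔ Q M R v)) :=
  ((h.imp h').and (h'.imp h)).congr (fun M R v => by tauto)

lemma all_finset {γ : Type} (s : Finset γ)
    {P : γ → ∀ (M : Type), Interp S ar M → (Fin r → M) → Prop} (h : ∀ c ∈ s, QF S ar r (P c)) :
    QF S ar r (fun M R v => ∀ c ∈ s, P c M R v) := by
  classical
  induction s using Finset.induction_on with
  | empty => exact (QF.const True).congr (fun M R v => by simp)
  | insert c s hc ih =>
    refine ((h c (Finset.mem_insert_self c s)).and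
      (ih (fun d hd => h d (Finset.mem_insert_of_mem hd)))).congr (fun M R v => ?_)
    simp only [Finset.forall_mem_insert]

lemma all_fin {γ : Type} [Finite γ] {P : γ → ∀ (M : Type), Interp S ar M → (Fin r → M) → Prop}
    (h : ∀ c, QF S ar r (P c)) : QF S ar r (fun M R v => ∀ c, P c M R v) := by
  have := Fintype.ofFinite γ
  exact (all_finset Finset.univ (fun c _ => h c)).congr (fun M R v => by simp)

lemma ex_fin {γ : Type} [Finite γ] {P : γ → ∀ (M : Type), Interp S ar M → (Fin r → M) → Prop}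
    (h : ∀ c, QF S ar r (P c)) : QF S ar r (fun M R v => ∃ c, P c M R v) := by
  refine (QF.all_fin (P := fun c M R v => ¬ P c M R v) (fun c => (h c).not)).not.congr
    (fun M R v => ?_)
  push Not
  rfl

/-- renaming of variables -/
lemma ren {r' : ℕ} {P : ∀ (M : Type), Interp S ar M → (Fin r → M) → Prop} (h : QF S ar r P)
    (e : Fin r → Fin r') : QF S ar r' (fun M R v => P M R (fun i => v (e i))) := by
  obtain ⟨ψ, hψ, h⟩ := h
  suffices hs : ∃ ψ' : (RelLang S ar).BoundedFormula Empty r', ψ'.IsQF ∧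
      ∀ (M : Type) (R : Interp S ar M) (v : Fin r' → M),
        @BoundedFormula.Realize _ M (mkS R) _ _ ψ' default v ↔
          @BoundedFormula.Realize _ M (mkS R) _ _ ψ default (fun i => v (e i)) by
    obtain ⟨ψ', hψ', h'⟩ := hs
    exact ⟨ψ', hψ', fun M R v => (h' M R v).trans (h M R _)⟩
  clear h
  induction hψ with
  | falsum => exact ⟨⊥, BoundedFormula.isQF_bot, fun M R v => Iff.rfl⟩
  | of_isAtomic hA =>
    cases hA with
    | equal t₁ t₂ =>
      have ht : ∀ t : (RelLang S ar).Term (Empty ⊕ Fin r), ∃ i : Fin r, t = Term.var (Sum.inr i) := by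
        intro t
        cases t with
        | var a =>
          rcases a with a | i
          · exact a.elim
          · exact ⟨i, rfl⟩
        | func f _ => exact Empty.elim f
      obtain ⟨i, rfl⟩ := ht t₁
      obtain ⟨j, rfl⟩ := ht t₂
      refine ⟨(Term.var (Sum.inr (e i))).bdEqual (Term.var (Sum.inr (e j))),
        (BoundedFormula.IsAtomic.equal _ _).isQF, fun M R v => ?_⟩
      let _ := mkS R
      simp [BoundedFormula.realize_bdEqual]
    | rel ρ ts =>
      have ht : ∀ t : (RelLang S ar).Term (Empty ⊕ Fin r), ∃ i : Fin r, t = Term.var (Sum.inr i) := by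
        intro t
        cases t with
        | var a =>
          rcases a with a | i
          · exact a.elim
          · exact ⟨i, rfl⟩
        | func f _ => exact Empty.elim f
      choose g hg using ht
      refine ⟨ρ.boundedFormula (fun i => Term.var (Sum.inr (e (g (ts i))))),
        (BoundedFormula.IsAtomic.rel _ _).isQF, fun M R v => ?_⟩
      let _ := mkS R
      rw [BoundedFormula.realize_rel, BoundedFormula.realize_rel]
      refine Iff.of_eq (congrArg _ ?_)
      funext i
      conv_rhs => rw [hg (ts i)]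
      rfl
  | imp _ _ ih₁ ih₂ =>
    obtain ⟨ψ₁, h₁, h₁'⟩ := ih₁
    obtain ⟨ψ₂, h₂, h₂'⟩ := ih₂
    refine ⟨ψ₁.imp ψ₂, h₁.imp h₂, fun M R v => ?_⟩
    let _ := mkS R
    rw [BoundedFormula.realize_imp, BoundedFormula.realize_imp, h₁', h₂']

/-- semantic description of prefix spectra -/
lemma prefixSpectrum [Finite S] {P : ∀ (M : Type), Interp S ar M → (Fin r → M) → Prop}
    (h : QF S ar r P) (q : ℕ → Bool) :
    PrefixSpectrum q r {n : ℕ | 1 ≤ n ∧ ∃ (M : Type) (_ : Fintype M) (R : Interp S ar M),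
      Fintype.card M = n ∧ preQ q r (P M R)} := by
  obtain ⟨ψ, hψ, h⟩ := h
  refine ⟨RelLang S ar, fun _ => inferInstanceAs (IsEmpty Empty), inferInstance, ψ, hψ, ?_⟩
  ext n
  constructor
  · rintro ⟨hn, M, hf, R, hc, hP⟩
    refine ⟨hn, M, mkS R, hf, hc, ?_⟩
    let _ := mkS R
    rw [realize_quantify]
    exact (preQ_congr q (fun v => h M R v)).2 hP
  · rintro ⟨hn, M, hM, hf, hc, hr⟩
    have e := structure_eq hM
    refine ⟨hn, M, hf, fun s v => hM.RelMap
      (⟨s, rfl⟩ : (RelLang S ar).Relations (ar s)) v, hc, ?_⟩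
    rw [realize_quantify] at hr
    refine (preQ_congr q (fun v => (h M _ v).symm)).2 ?_
    rw [← e]
    exact hr

end QF

end Pool.Agent.Helper20.Spectra
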