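import Pool.Agent.Helper20.Pfx.AEA

/-!
# Dummy quantifiers, and the prefixes with finite or cofinite spectra
-/

set_option autoImplicit false

namespace Pool.Agent.Helper20.Spectra

open FirstOrder FirstOrder.Language

/-! ### Dummy quantifiers -/

lemma preQ_sub {M : Type} [Nonempty M] (q q' : ℕ → Bool) : ∀ (r : ℕ) {r' : ℕ}
    (e : Fin r' → Fin r) (_ : StrictMono e) (_ : ∀ i : Fin r', q' i = q (e i))
    (P : (Fin r' → M) → Prop), preQ q r (fun v => P (fun i => v (e i))) ↔ preQ q' r' P
  | 0, 0, e, _, _, P => by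
    show P _ ↔ P _
    exact Iff.of_eq (congrArg P (Subsingleton.elim _ _))
  | 0, r' + 1, e, _, _, P => (e 0).elim0
  | r + 1, 0, e, he, hq, P => by
    have ih := preQ_sub q q' r (r' := 0) (fun i => i.elim0) (fun i => i.elim0)
      (fun i => i.elim0) P
    rw [← ih]
    show preQ q r _ ↔ preQ q r _
    refine preQ_congr q (fun v => ?_)
    have e1 : ∀ x : M, (P (fun i => (Fin.snoc v x : Fin (r + 1) → M) (e i)) ↔
        P (fun i => v (Fin.elim0 i))) := by
      intro x
      exact Iff.of_eq (congrArg P (Subsingleton.elim _ _))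
    split_ifs
    · simp only [e1, forall_const]
    · simp only [e1, exists_const]
  | r + 1, k + 1, e, he, hq, P => by
    by_cases hl : e (Fin.last k) = Fin.last r
    · -- the last quantifier is used
      have hlt : ∀ j : Fin k, (e j.castSucc : ℕ) < r := by
        intro j
        have h1 : e j.castSucc < e (Fin.last k) := he (Fin.castSucc_lt_last j)
        rw [hl] at h1
        exact h1
      have ih := preQ_sub q q' r (r' := k) (fun j => ⟨e j.castSucc, hlt j⟩)
        (fun i j hij => he (Fin.castSucc_lt_castSucc_iff.2 hij))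
        (fun j => hq j.castSucc)
        (fun v => if q r = true then (∀ x : M, P (Fin.snoc v x)) else
          ∃ x : M, P (Fin.snoc v x))
      have hqr : q' k = q r := by
        have := hq (Fin.last k)
        rw [hl] at this
        exact this
      have e1 : ∀ (v : Fin r → M) (x : M), (fun i => (Fin.snoc v x : Fin (r + 1) → M) (e i)) =
          (Fin.snoc (fun j : Fin k => v ⟨e j.castSucc, hlt j⟩) x : Fin (k + 1) → M) := by
        intro v x
        funext i
        refine Fin.lastCases ?_ (fun j => ?_) i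
        · rw [hl, Fin.snoc_last, Fin.snoc_last]
        · rw [Fin.snoc_castSucc]
          show (Fin.snoc v x : Fin (r + 1) → M) (Fin.castSucc ⟨e j.castSucc, hlt j⟩) = _
          rw [Fin.snoc_castSucc]
      show preQ q r (fun v => if q r = true then (∀ x : M, P (fun i =>
          (Fin.snoc v x : Fin (r + 1) → M) (e i))) else
        ∃ x : M, P (fun i => (Fin.snoc v x : Fin (r + 1) → M) (e i))) ↔
        preQ q' k (fun v => if q' k = true then (∀ x : M, P (Fin.snoc v x)) else
          ∃ x : M, P (Fin.snoc v x))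
      rw [hqr, ← ih]
      refine preQ_congr q (fun v => ?_)
      simp only [e1]
    · -- the last quantifier is a dummy
      have hlt : ∀ j : Fin (k + 1), (e j : ℕ) < r := by
        intro j
        have h1 : e j ≤ e (Fin.last k) := he.monotone (Fin.le_last j)
        have h2 : (e (Fin.last k) : ℕ) ≠ r := fun h => hl (Fin.ext h)
        have h3 := (e (Fin.last k)).isLt
        have h4 : (e j : ℕ) ≤ e (Fin.last k) := h1
        omega
      have ih := preQ_sub q q' r (r' := k + 1) (fun j => ⟨e j, hlt j⟩)
        (fun i j hij => he hij) hq P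
      rw [← ih]
      have e1 : ∀ (v : Fin r → M) (x : M), (fun i => (Fin.snoc v x : Fin (r + 1) → M) (e i)) =
          fun j => v ⟨e j, hlt j⟩ := by
        intro v x
        funext i
        show (Fin.snoc v x : Fin (r + 1) → M) (Fin.castSucc ⟨e i, hlt i⟩) = _
        rw [Fin.snoc_castSucc]
      show preQ q r (fun v => if q r = true then (∀ x : M, P (fun i =>
          (Fin.snoc v x : Fin (r + 1) → M) (e i))) else
        ∃ x : M, P (fun i => (Fin.snoc v x : Fin (r + 1) → M) (e i))) ↔ _
      refine preQ_congr q (fun v => ?_)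
      simp only [e1]
      split_ifs
      · simp only [forall_const]
      · simp only [exists_const]

/-- renaming of the variables of quantifier-free formulas -/
lemma exists_ren {L : FirstOrder.Language.{0, 0}} (hL : L.IsRelational) {r r' : ℕ}
    (e : Fin r → Fin r') {ψ : L.BoundedFormula Empty r} (hψ : ψ.IsQF) :
    ∃ ψ' : L.BoundedFormula Empty r', ψ'.IsQF ∧ ∀ (M : Type) (_ : L.Structure M) (v : Fin r' → M),
      ψ'.Realize default v ↔ ψ.Realize default (fun i => v (e i)) := by
  have ht : ∀ t : L.Term (Empty ⊕ Fin r), ∃ i : Fin r, t = Term.var (Sum.inr i) := by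
    intro t
    cases t with
    | var a =>
      rcases a with a | i
      · exact a.elim
      · exact ⟨i, rfl⟩
    | func f _ => exact (hL _).elim f
  choose g hg using ht
  induction hψ with
  | falsum => exact ⟨⊥, BoundedFormula.isQF_bot, fun M _ v => Iff.rfl⟩
  | of_isAtomic hA =>
    cases hA with
    | equal t₁ t₂ =>
      rw [hg t₁, hg t₂]
      refine ⟨(Term.var (Sum.inr (e (g t₁)))).bdEqual (Term.var (Sum.inr (e (g t₂)))),
        (BoundedFormula.IsAtomic.equal _ _).isQF, fun M _ v => ?_⟩
      simp [BoundedFormula.realize_bdEqual]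
    | rel ρ ts =>
      refine ⟨ρ.boundedFormula (fun i => Term.var (Sum.inr (e (g (ts i))))),
        (BoundedFormula.IsAtomic.rel _ _).isQF, fun M _ v => ?_⟩
      rw [BoundedFormula.realize_rel, BoundedFormula.realize_rel]
      refine Iff.of_eq (congrArg _ ?_)
      funext i
      conv_rhs => rw [hg (ts i)]
      rfl
  | imp _ _ ih₁ ih₂ =>
    obtain ⟨ψ₁, h₁, h₁'⟩ := ih₁
    obtain ⟨ψ₂, h₂, h₂'⟩ := ih₂
    refine ⟨ψ₁.imp ψ₂, h₁.imp h₂, fun M _ v => ?_⟩
    rw [BoundedFormula.realize_imp, BoundedFormula.realize_imp, h₁', h₂']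

/-- prefix spectra for a scattered subword -/
theorem PrefixSpectrum.sub {q q' : ℕ → Bool} {r r' : ℕ} {A : Set ℕ}
    (h : PrefixSpectrum q' r' A) (e : Fin r' → Fin r) (he : StrictMono e)
    (hq : ∀ i : Fin r', q' i = q (e i)) : PrefixSpectrum q r A := by
  obtain ⟨L, hL, hf, ψ, hψ, rfl⟩ := h
  obtain ⟨ψ', hψ', h'⟩ := exists_ren hL e hψ
  refine ⟨L, hL, hf, ψ', hψ', ?_⟩
  ext n
  refine and_congr_right (fun hn => exists_congr (fun M => exists_congr (fun _ =>
    exists_congr (fun _ => and_congr_right (fun hc => ?_)))))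
  have : Nonempty M := by
    rw [← Fintype.card_pos_iff, hc]
    exact hn
  rw [realize_quantify, realize_quantify, ← preQ_sub q q' r e he hq]
  exact preQ_congr q (fun v => (h' M _ v).symm)

/-! ### Blocks of quantifiers -/

lemma preQ_ex0 {M : Type} {q : ℕ → Bool} : ∀ (a : ℕ) (_ : ∀ i, i < a → q i = false)
    (P : (Fin a → M) → Prop), preQ q a P ↔ ∃ v, P v
  | 0, _, P => by
    show P default ↔ _
    constructor
    · intro h
      exact ⟨_, h⟩
    · rintro ⟨v, h⟩
      rw [Subsingleton.elim default v]
      exact h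
  | a + 1, h, P => by
    show preQ q a _ ↔ _
    rw [preQ_ex0 a (fun i hi => h i (by omega))]
    have hq : ¬ q a = true := by
      rw [h a (by omega)]
      simp
    simp only [hq]
    constructor
    · rintro ⟨v, x, hx⟩
      exact ⟨_, hx⟩
    · rintro ⟨v, hv⟩
      refine ⟨Fin.init v, v (Fin.last a), ?_⟩
      rw [Fin.snoc_init_self]
      exact hv

/-- `w` extends `v` -/
def Ext {M : Type} {a b : ℕ} (v : Fin a → M) (w : Fin (a + b) → M) : Prop :=
  ∀ i : Fin a, w (Fin.castAdd b i) = v i

lemma ext_snoc {M : Type} {a b : ℕ} (v : Fin a → M) (w : Fin (a + b) → M) (x : M) :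
    Ext (b := b + 1) v (Fin.snoc w x : Fin (a + b + 1) → M) ↔ Ext v w := by
  refine forall_congr' (fun i => ?_)
  have : (Fin.castAdd (b + 1) i : Fin (a + b + 1)) = Fin.castSucc (Fin.castAdd b i) := rfl
  show (Fin.snoc w x : Fin (a + b + 1) → M) (Fin.castAdd (b + 1) i) = v i ↔ _
  rw [this, Fin.snoc_castSucc]

lemma preQ_allB {M : Type} {q : ℕ → Bool} {a : ℕ} : ∀ (b : ℕ)
    (_ : ∀ i, a ≤ i → i < a + b → q i = true) (P : (Fin (a + b) → M) → Prop),
    preQ q (a + b) P ↔ preQ q a (fun v => ∀ w : Fin (a + b) → M, Ext v w → P w)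
  | 0, _, P => by
    refine preQ_congr q (fun v => ?_)
    constructor
    · intro h w hw
      have : w = v := funext hw
      rw [this]
      exact h
    · intro h
      exact h v (fun i => rfl)
  | b + 1, h, P => by
    show preQ q (a + b) _ ↔ _
    rw [preQ_allB b (fun i hi hi' => h i hi (by omega))]
    refine preQ_congr q (fun v => ?_)
    have hq : q (a + b) = true := h _ (by omega) (by omega)
    show (∀ w : Fin (a + b) → M, Ext v w → (if q (a + b) = true then
      (∀ x, P (Fin.snoc w x)) else ∃ x, P (Fin.snoc w x))) ↔ _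
    simp only [hq, if_true]
    constructor
    · intro h1 w hw
      have e : w = (Fin.snoc (Fin.init w : Fin (a + b) → M) (w (Fin.last (a + b))) :
          Fin (a + b + 1) → M) := (Fin.snoc_init_self w).symm
      rw [e] at hw ⊢
      exact h1 _ ((ext_snoc _ _ _).1 hw) _
    · intro h1 w hw x
      exact h1 _ ((ext_snoc _ _ _).2 hw)

lemma preQ_exB {M : Type} {q : ℕ → Bool} {a : ℕ} : ∀ (b : ℕ)
    (_ : ∀ i, a ≤ i → i < a + b → q i = false) (P : (Fin (a + b) → M) → Prop),
    preQ q (a + b) P ↔ preQ q a (fun v => ∃ w : Fin (a + b) → M, Ext v w ∧ P w)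
  | 0, _, P => by
    refine preQ_congr q (fun v => ?_)
    constructor
    · intro h
      exact ⟨v, fun i => rfl, h⟩
    · rintro ⟨w, hw, h⟩
      have : w = v := funext hw
      rw [this] at h
      exact h
  | b + 1, h, P => by
    show preQ q (a + b) _ ↔ _
    rw [preQ_exB b (fun i hi hi' => h i hi (by omega))]
    refine preQ_congr q (fun v => ?_)
    have hq : ¬ q (a + b) = true := by
      rw [h _ (by omega) (by omega)]
      simp
    show (∃ w : Fin (a + b) → M, Ext v w ∧ (if q (a + b) = true then
      (∀ x, P (Fin.snoc w x)) else ∃ x, P (Fin.snoc w x))) ↔ _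
    simp only [hq]
    constructor
    · rintro ⟨w, hw, x, hx⟩
      exact ⟨_, (ext_snoc _ _ _).2 hw, hx⟩
    · rintro ⟨w, hw, h1⟩
      have e : w = (Fin.snoc (Fin.init w : Fin (a + b) → M) (w (Fin.last (a + b))) :
          Fin (a + b + 1) → M) := (Fin.snoc_init_self w).symm
      rw [e] at hw h1
      exact ⟨_, (ext_snoc _ _ _).1 hw, _, h1⟩

/-! ### Finite or cofinite spectra -/

lemma realize_inj {L : FirstOrder.Language.{0, 0}} (hL : L.IsRelational) {M N : Type}
    [L.Structure M] [L.Structure N] (f : M → N) (hf : Function.Injective f)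
    (hR : ∀ (n : ℕ) (ρ : L.Relations n) (u : Fin n → M), Structure.RelMap ρ (f ∘ u) ↔
      Structure.RelMap ρ u) {r : ℕ} {ψ : L.BoundedFormula Empty r} (hψ : ψ.IsQF)
    (w : Fin r → M) : ψ.Realize default (f ∘ w) ↔ ψ.Realize default w := by
  let E : M ↪[L] N :=
    { toFun := f
      inj' := hf
      map_fun' := fun {n} g _ => (hL n).elim g
      map_rel' := fun ρ u => hR _ ρ u }
  have h := hψ.realize_embedding E (v := (default : Empty → M)) (xs := w)
  have e : (⇑E ∘ (default : Empty → M)) = (default : Empty → N) := Subsingleton.elim _ _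
  rw [e] at h
  exact h

/-- prefix `∃…∃∀…∀` -/
lemma finite_or_cofinite_EA {q : ℕ → Bool} {a b : ℕ} (h1 : ∀ i, i < a → q i = false)
    (h2 : ∀ i, a ≤ i → i < a + b → q i = true) {A : Set ℕ} (hA : PrefixSpectrum q (a + b) A) :
    A.Finite ∨ Aᶜ.Finite := by
  obtain ⟨L, hL, hf, ψ, hψ, rfl⟩ := hA
  have hmod : ∀ (M : Type) (_ : L.Structure M), (M ⊨ quantify q (a + b) ψ) ↔
      ∃ v : Fin a → M, ∀ w : Fin (a + b) → M, Ext v w → ψ.Realize default w := by
    intro M _
    rw [realize_quantify, preQ_allB b h2, preQ_ex0 a h1]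
  -- downward closed above `a`
  have hdown : ∀ n n', 1 ≤ n → a ≤ n → n ≤ n' → n' ∈ spec (quantify q (a + b) ψ) →
      n ∈ spec (quantify q (a + b) ψ) := by
    rintro n n' hn hna hnn ⟨_, M, hM, hfM, hc, hr⟩
    rw [hmod] at hr
    obtain ⟨v, hv⟩ := hr
    classical
    have hcard : (Finset.univ.image v).card ≤ n := by
      refine (Finset.card_image_le).trans ?_
      rw [Finset.card_univ, Fintype.card_fin]
      exact hna
    obtain ⟨X, hX1, _, hX2⟩ := Finset.exists_subsuperset_card_eq
      (Finset.subset_univ (Finset.univ.image v)) hcard (by rw [Finset.card_univ, hc]; exact hnn)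
    let SX : L.Structure {x // x ∈ X} :=
      { funMap := fun {n} g _ => (hL n).elim g
        RelMap := fun ρ u => Structure.RelMap (M := M) ρ (fun i => (u i : M)) }
    refine ⟨hn, {x // x ∈ X}, SX, inferInstance, by rw [Fintype.card_coe, hX2], ?_⟩
    rw [hmod]
    refine ⟨fun i => ⟨v i, hX1 (Finset.mem_image_of_mem v (Finset.mem_univ i))⟩, fun w hw => ?_⟩
    have h3 := realize_inj (M := {x // x ∈ X}) (N := M) hL (fun x => (x : M))
      Subtype.val_injective (fun n ρ u => Iff.rfl) hψ w
    refine h3.1 (hv _ (fun i => ?_))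
    show ((w (Fin.castAdd b i) : {x // x ∈ X}) : M) = v i
    rw [hw i]
  by_cases hfin : (spec (quantify q (a + b) ψ)).Finite
  · exact Or.inl hfin
  · refine Or.inr ((Set.finite_Iio (a + 1)).subset ?_)
    intro n hn
    by_contra hna
    apply hn
    rw [Set.mem_Iio, not_lt] at hna
    obtain ⟨n', hn', hlt⟩ := (Set.not_finite.1 hfin).exists_gt n
    exact hdown n n' (by omega) (by omega) hlt.le hn'

/-- prefix `∃…∃∀∃…∃` -/
lemma finite_or_cofinite_EAE {q : ℕ → Bool} {a b : ℕ} (h1 : ∀ i, i < a → q i = false)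
    (h0 : q a = true) (h2 : ∀ i, a + 1 ≤ i → i < a + 1 + b → q i = false) {A : Set ℕ}
    (hA : PrefixSpectrum q (a + 1 + b) A) : A.Finite ∨ Aᶜ.Finite := by
  obtain ⟨L, hL, hf, ψ, hψ, rfl⟩ := hA
  have hmod : ∀ (M : Type) (_ : L.Structure M), (M ⊨ quantify q (a + 1 + b) ψ) ↔
      ∃ v : Fin a → M, ∀ x : M, ∃ w : Fin (a + 1 + b) → M,
        Ext (Fin.snoc v x : Fin (a + 1) → M) w ∧ ψ.Realize default w := by
    intro M _
    rw [realize_quantify, preQ_exB b h2]
    show preQ q a _ ↔ _
    rw [preQ_ex0 a h1]
    simp only [h0, if_true]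
  -- upward closed above `a`
  have hup : ∀ n, a < n → n ∈ spec (quantify q (a + 1 + b) ψ) →
      n + 1 ∈ spec (quantify q (a + 1 + b) ψ) := by
    rintro n hna ⟨_, M, hM, hfM, hc, hr⟩
    rw [hmod] at hr
    obtain ⟨v, hv⟩ := hr
    classical
    -- an element outside of the tuple
    obtain ⟨m₀, hm₀⟩ : ∃ m₀ : M, ∀ i, v i ≠ m₀ := by
      by_contra hcon
      push Not at hcon
      have h3 : Function.Surjective v := hcon
      have h4 := Fintype.card_le_of_surjective v h3
      rw [hc, Fintype.card_fin] at h4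
      omega
    let ρ' : Option M → M := fun x => x.getD m₀
    let g : M → Option M := fun x => if x = m₀ then none else some x
    have hg : ∀ x, ρ' (g x) = x := by
      intro x
      by_cases hx : x = m₀
      · simp [g, ρ', hx]
      · simp [g, ρ', hx]
    let SO : L.Structure (Option M) :=
      { funMap := fun {n} g _ => (hL n).elim g
        RelMap := fun R u => Structure.RelMap (M := M) R (fun i => ρ' (u i)) }
    refine ⟨by omega, Option M, SO, inferInstance, by rw [Fintype.card_option, hc], ?_⟩
    rw [hmod]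
    refine ⟨fun i => some (v i), fun x => ?_⟩
    rcases x with _ | x
    · obtain ⟨w, hw, hψw⟩ := hv m₀
      have h3 := realize_inj (M := M) (N := Option M) hL g
        (fun x y hxy => by rw [← hg x, ← hg y, hxy]) (fun n R u => by
          show Structure.RelMap (M := M) R (fun i => ρ' (g (u i))) ↔ _
          simp only [hg]) hψ w
      refine ⟨g ∘ w, fun i => ?_, h3.2 hψw⟩
      show g (w (Fin.castAdd b i)) = _
      rw [hw i]
      refine Fin.lastCases ?_ (fun j => ?_) i
      · rw [Fin.snoc_last, Fin.snoc_last]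
        simp [g]
      · rw [Fin.snoc_castSucc, Fin.snoc_castSucc]
        simp [g, hm₀ j]
    · obtain ⟨w, hw, hψw⟩ := hv x
      have h3 := realize_inj (M := M) (N := Option M) hL some
        (Option.some_injective M) (fun n R u => Iff.rfl) hψ w
      refine ⟨some ∘ w, fun i => ?_, h3.2 hψw⟩
      show some (w (Fin.castAdd b i)) = _
      rw [hw i]
      refine Fin.lastCases ?_ (fun j => ?_) i
      · rw [Fin.snoc_last, Fin.snoc_last]
      · rw [Fin.snoc_castSucc, Fin.snoc_castSucc]
  by_cases hne : ∃ n, a < n ∧ n ∈ spec (quantify q (a + 1 + b) ψ)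
  · obtain ⟨n, hn, hn'⟩ := hne
    refine Or.inr ((Set.finite_Iio n).subset ?_)
    intro k hk
    by_contra hkn
    apply hk
    rw [Set.mem_Iio, not_lt] at hkn
    induction k, hkn using Nat.le_induction with
    | base => exact hn'
    | succ k hk' ih =>
      refine hup k (by omega) ?_
      by_contra hcon
      exact hcon (ih hcon)
  · push Not at hne
    refine Or.inl ((Set.finite_Iic a).subset ?_)
    intro k hk
    by_contra hka
    rw [Set.mem_Iic, not_le] at hka
    exact hne k hka hk

/-- prefixes which contain neither `∀∀∃` nor `∀∃∀` -/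
theorem finite_or_cofinite {q : ℕ → Bool} {r : ℕ}
    (h : ∀ i j k, i < j → j < k → k < r → q i = true → q j = q k) {A : Set ℕ}
    (hA : PrefixSpectrum q r A) : A.Finite ∨ Aᶜ.Finite := by
  by_cases hall : ∀ i, i < r → q i = false
  · exact finite_or_cofinite_EA (a := r) (b := 0) hall (fun i hi hi' => by omega) hA
  · push Not at hall
    have hex : ∃ i, i < r ∧ q i = true := by
      obtain ⟨i, hi, hq⟩ := hall
      exact ⟨i, hi, by simpa using hq⟩
    classical
    obtain ⟨a, ⟨har, hqa⟩, hmin⟩ : ∃ a, (a < r ∧ q a = true) ∧ ∀ i, i < a → q i = false := by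
      refine ⟨Nat.find hex, Nat.find_spec hex, fun i hi => ?_⟩
      have := Nat.find_min hex hi
      push Not at this
      have h2 := this (hi.trans (Nat.find_spec hex).1)
      simpa using h2
    by_cases hnext : a + 1 < r ∧ q (a + 1) = true
    · -- E…EA…A
      obtain ⟨b, rfl⟩ : ∃ b, r = a + b := ⟨r - a, by omega⟩
      refine finite_or_cofinite_EA hmin (fun i hi hi' => ?_) hA
      rcases Nat.lt_or_ge i (a + 2) with h3 | h3
      · rcases (by omega : i = a ∨ i = a + 1) with rfl | rfl
        · exact hqa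
        · exact hnext.2
      · rw [← h a (a + 1) i (by omega) (by omega) hi' hqa]
        exact hnext.2
    · -- E…EAE…E
      obtain ⟨b, rfl⟩ : ∃ b, r = a + 1 + b := ⟨r - (a + 1), by omega⟩
      refine finite_or_cofinite_EAE hmin hqa (fun i hi hi' => ?_) hA
      have hq1 : q (a + 1) = false := by
        by_contra hc
        exact hnext ⟨by omega, by simpa using hc⟩
      rcases Nat.lt_or_ge i (a + 2) with h3 | h3
      · have : i = a + 1 := by omega
        rw [this]
        exact hq1
      · rw [← h a (a + 1) i (by omega) (by omega) hi' hqa]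
        exact hq1

end Pool.Agent.Helper20.Spectra
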