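import Pool.Agent.Helper20.Pfx.Dummy
import Pool.Agent.Helper20.Sparse.Def

/-!
# Classification of the quantifier prefixes
-/

set_option autoImplicit false

namespace Pool.Agent.Helper20.Spectra

/-- the prefix `w` of length three is universal -/
def UniversalPrefix (w : ℕ → Bool) : Prop :=
  ∀ Θ : Finset (ℕ × ℕ × ℕ × ℕ), ∃ (p : Polynomial ℕ) (A : Set ℕ),
      PrefixSpectrum w 3 A ∧ ∀ N, 1 ≤ N → (N ∈ squareSizes Θ ↔ p.eval N ∈ A)

lemma squareSizes_pos {Θ : Finset (ℕ × ℕ × ℕ × ℕ)} {N : ℕ} (h : N ∈ squareSizes Θ) : 1 ≤ N := h.1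

/-- a universal prefix contained in `q` -/
lemma q1_of_universal {w q : ℕ → Bool} (hw : UniversalPrefix w) {r : ℕ} (e : Fin 3 → Fin r)
    (he : StrictMono e) (hq : ∀ i : Fin 3, w i = q (e i)) :
    (∀ A : Set ℕ, PrefixSpectrum q r A → IsRudimentary A) ↔
      ∀ A : Set ℕ, IsSpectrum A ↔ (IsRudimentary A ∧ 0 ∉ A) := by
  constructor
  · intro h
    obtain ⟨Θ₀, hΘ₀⟩ := exists_universal_blocks
    obtain ⟨p, B, hB, hp⟩ := hw Θ₀
    have hBr : IsRudimentary B := h B (hB.sub e he hq)
    intro A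
    refine ⟨fun hA => ⟨?_, hA.zero_notMem⟩, fun hA => hA.1.isSpectrum hA.2⟩
    obtain ⟨g, hg⟩ := hΘ₀ A hA
    have h1 := hBr.preimage p
    have h2 := h1.preimage g
    rw [hg]
    convert h2 using 1
    ext n
    simp only [Set.mem_ofPred_eq]
    constructor
    · rintro ⟨hn, hm⟩
      exact ⟨hn, squareSizes_pos hm, (hp _ (squareSizes_pos hm)).1 hm⟩
    · rintro ⟨hn, hg1, hm⟩
      exact ⟨hn, (hp _ hg1).2 hm⟩
  · intro h A hA
    exact ((h A).1 hA.isSpectrum).1

/-- the two words `∀∀∃` and `∀∃∀` -/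
abbrev wAAE : ℕ → Bool := fun i => decide (i ≤ 1)
abbrev wAEA : ℕ → Bool := fun i => decide (i ≠ 1)

theorem prefix_main (hAAE : UniversalPrefix wAAE) (r : ℕ) (q : ℕ → Bool) :
    ((∃ i j k, i < j ∧ j < k ∧ k < r ∧ q i = true ∧ q j ≠ q k) →
      ((∀ A : Set ℕ, PrefixSpectrum q r A → IsRudimentary A) ↔
        ∀ A : Set ℕ, IsSpectrum A ↔ (IsRudimentary A ∧ 0 ∉ A))) ∧
    ((¬ ∃ i j k, i < j ∧ j < k ∧ k < r ∧ q i = true ∧ q j ≠ q k) →
      ∀ A : Set ℕ, PrefixSpectrum q r A → (A.Finite ∨ Aᶜ.Finite)) := by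
  constructor
  · rintro ⟨i, j, k, hij, hjk, hk, hi, hne⟩
    let e : Fin 3 → Fin r := ![⟨i, by omega⟩, ⟨j, by omega⟩, ⟨k, hk⟩]
    have he : StrictMono e := by
      intro a b hab
      fin_cases a <;> fin_cases b <;> simp [e, Fin.lt_def] at hab ⊢ <;> omega
    by_cases hj : q j = true
    · have hk' : q k = false := by
        cases hqk : q k
        · rfl
        · exact absurd (hj.trans hqk.symm) hne
      refine q1_of_universal hAAE e he (fun a => ?_)
      fin_cases a
      · exact hi.symm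
      · exact hj.symm
      · exact hk'.symm
    · have hj' : q j = false := by simpa using hj
      have hk' : q k = true := by
        cases hqk : q k
        · exact absurd (hj'.trans hqk.symm) hne
        · rfl
      refine q1_of_universal (w := wAEA)
        (fun Θ => aea_universal Θ (by decide) (by decide) (by decide)) e he (fun a => ?_)
      fin_cases a
      · exact hi.symm
      · exact hj'.symm
      · exact hk'.symm
  · intro h A hA
    refine finite_or_cofinite (fun i j k hij hjk hk hi => ?_) hA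
    by_contra hne
    exact h ⟨i, j, k, hij, hjk, hk, hi, hne⟩

end Pool.Agent.Helper20.Spectra
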